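import Mathlib
import Pool.Agent.W205.K5.All

set_option autoImplicit false

namespace Pool.Agent.Results.MP_9079fe_co.ExactLargeGroundSet

open Finset

/-- For every `k ≥ 2` there is `n0` such that for all `n ≥ n0` and all `s` with
`n ≥ (k + 39/40) s` the conjecture holds exactly, and the maximum is its first term. -/
theorem result :
    ∀ k : ℕ, 2 ≤ k → ∃ n0 : ℕ, ∀ n : ℕ, n0 ≤ n → ∀ s : ℕ, (40 * k + 39) * s ≤ 40 * n →
      IsGreatest
        {m : ℕ | ∃ F : Finset (Finset (Fin n)),
          (∀ A ∈ F, A.card = k) ∧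
          (∀ M ⊆ F, (M : Set (Finset (Fin n))).PairwiseDisjoint id → M.card ≤ s) ∧
          F.card = m}
        (max (n.choose k - (n - s).choose k) ((k * (s + 1) - 1).choose k)) ∧
      (k * (s + 1) - 1).choose k ≤ n.choose k - (n - s).choose k ∧ k * (s + 1) ≤ n := by
  intro k h2
  exact Pool.Agent.W890.SF.R2.greatest Pool.Agent.W890.SF.t_EMC Pool.Agent.W890.SF.t_LOW k h2

end Pool.Agent.Results.MP_9079fe_co.ExactLargeGroundSet
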